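import Mathlib
import Pool.Agent.H925R3.DC.Stubs

/-! PRMC: from the weighted sum to a count of primes. -/

namespace Pool.Agent.H498DC

open Finset Pool.Agent.H925R3.DC Pool.Agent.H410R2

theorem card_primeFactors_le (m : ℕ) (hm : 0 < m) : 2 ^ m.primeFactors.card ≤ m := by
  calc 2 ^ m.primeFactors.card = ∏ _p ∈ m.primeFactors, 2 := by rw [Finset.prod_const]
    _ ≤ ∏ p ∈ m.primeFactors, p :=
      Finset.prod_le_prod' fun p hp => (Nat.prime_of_mem_primeFactors hp).two_le
    _ ≤ m := Nat.le_of_dvd hm (Nat.prod_primeFactors_dvd m)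

theorem dvd_of_modEq {M q n : ℕ} {e : ℤ} (he : e = 1 ∨ e = -1) (hMq : 0 < M * q)
    (h : n ≡ rr e (M * q) [MOD M * q]) : ((M * q : ℕ) : ℤ) ∣ (n : ℤ) + e := by
  rw [Nat.modEq_iff_dvd] at h
  rcases he with rfl | rfl
  · have e1 : ((rr 1 (M * q) : ℕ) : ℤ) = ((M * q : ℕ) : ℤ) - 1 := by
      rw [rr, if_pos rfl]
      rw [Nat.cast_sub (by omega)]
      norm_num
    rw [e1] at h
    have h2 := (dvd_sub_right (dvd_refl ((M * q : ℕ) : ℤ))).2 h
    have h3 : (n : ℤ) + 1 = ((M * q : ℕ) : ℤ) - (((M * q : ℕ) : ℤ) - 1 - n) := by ring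
    rw [h3]
    exact dvd_sub (dvd_refl _) h
  · have e1 : ((rr (-1) (M * q) : ℕ) : ℤ) = 1 := by
      rw [rr, if_neg (by norm_num)]
      norm_num
    rw [e1] at h
    have h3 : (n : ℤ) + -1 = -(1 - n) := by ring
    rw [h3]
    exact (dvd_neg).2 h

theorem pp_card (N : ℕ) : ((Icc 1 N).filter (fun n => IsPrimePow n ∧ ¬ n.Prime)).card ≤
    Nat.sqrt N * Nat.log 2 N := by
  classical
  have h : (Icc 1 N).filter (fun n => IsPrimePow n ∧ ¬ n.Prime) ⊆
      ((Icc 1 (Nat.sqrt N)) ×ˢ (Icc 1 (Nat.log 2 N))).image (fun a => a.1 ^ a.2) := by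
    intro n hn
    rw [mem_filter, mem_Icc] at hn
    obtain ⟨⟨h1, h2⟩, hpp, hnp⟩ := hn
    obtain ⟨p, k, hp, hk, rfl⟩ := (isPrimePow_nat_iff n).1 hpp
    have hk2 : 2 ≤ k := by
      by_contra hcon
      have : k = 1 := by omega
      subst this
      rw [pow_one] at hnp
      exact hnp hp
    rw [mem_image]
    refine ⟨(p, k), ?_, rfl⟩
    rw [mem_product, mem_Icc, mem_Icc]
    refine ⟨⟨hp.one_le, ?_⟩, ⟨hk, ?_⟩⟩
    · rw [Nat.le_sqrt']
      exact (Nat.pow_le_pow_right hp.pos hk2).trans h2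
    · refine Nat.le_log_of_pow_le (by norm_num) ?_
      exact (Nat.pow_le_pow_left hp.two_le k).trans h2
  refine (card_le_card h).trans (card_image_le.trans ?_)
  rw [card_product, Nat.card_Icc, Nat.card_Icc, Nat.add_sub_cancel, Nat.add_sub_cancel]

theorem prmc : Pool.Agent.H925R3.DC.PRMC := by
  classical
  intro M hM e he δ hδ hδ8
  refine ⟨8, fun X hX => ?_⟩
  have hX0 : 0 < X := by linarith
  set N := ⌊X⌋₊ with hN
  have hNX : (N : ℝ) ≤ X := Nat.floor_le hX0.le
  have hl2 : 0.69 < Real.log 2 := by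
    have := Real.log_two_gt_d9
    linarith
  have hl2' : Real.log 2 < 0.7 := by
    have := Real.log_two_lt_d9
    linarith
  set L := Real.log X with hL
  have hL2 : 2 ≤ L := by
    have h1 : Real.log 8 = 3 * Real.log 2 := by
      rw [show (8 : ℝ) = 2 ^ (3 : ℕ) by norm_num, Real.log_pow]; norm_num
    have h2 : Real.log 8 ≤ L := Real.log_le_log (by norm_num) hX
    linarith
  have hN1 : 1 ≤ N := Nat.le_floor (by push_cast; linarith)
  -- the terms
  have t1 : ∀ n ∈ Icc 1 N, ArithmeticFunction.vonMangoldt n * Real.log (X / n) ≤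
      if IsPrimePow n then L ^ 2 else 0 := by
    intro n hn
    rw [mem_Icc] at hn
    have hn1 : (1 : ℝ) ≤ n := by exact_mod_cast hn.1
    have hnN : (n : ℝ) ≤ N := by exact_mod_cast hn.2
    have hnX : (n : ℝ) ≤ X := by linarith
    split_ifs with hp
    · have h1 : ArithmeticFunction.vonMangoldt n ≤ L :=
        ArithmeticFunction.vonMangoldt_le_log.trans (Real.log_le_log (by linarith) hnX)
      have h2 : Real.log (X / n) ≤ L :=
        Real.log_le_log (by positivity) (div_le_self hX0.le hn1)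
      have h3 : 0 ≤ Real.log (X / n) := Real.log_nonneg (by rw [le_div_iff₀ (by linarith)]; linarith)
      calc _ ≤ L * L := mul_le_mul h1 h2 h3 (by linarith)
        _ = L ^ 2 := by ring
    · rw [ArithmeticFunction.vonMangoldt_eq_zero_iff.2 hp, zero_mul]
  -- the number of `q`
  have hk : ∀ n ∈ Icc 1 N, IsPrimePow n →
      (((QQ δ X).filter (fun q => n ≡ rr e (M * q) [MOD M * q])).card : ℝ) ≤ 2 * L := by
    intro n hn hpp
    rw [mem_Icc] at hn
    have hn2 : 2 ≤ n := hpp.two_le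
    obtain ⟨m, hm⟩ : ∃ m : ℕ, (m : ℤ) = (n : ℤ) + e :=
      ⟨((n : ℤ) + e).toNat, Int.toNat_of_nonneg (by rcases he with rfl | rfl <;> omega)⟩
    have hm0 : 0 < m := by rcases he with rfl | rfl <;> omega
    have hmn : m ≤ n + 1 := by rcases he with rfl | rfl <;> omega
    have hsub : (QQ δ X).filter (fun q => n ≡ rr e (M * q) [MOD M * q]) ⊆ m.primeFactors := by
      intro q hq
      rw [mem_filter] at hq
      obtain ⟨hq1, hq2⟩ := hq
      rw [QQ, mem_filter] at hq1
      have hqp : q.Prime := hq1.2.1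
      have h1 := dvd_of_modEq he (Nat.mul_pos hM hqp.pos) hq2
      rw [← hm, Int.natCast_dvd_natCast] at h1
      rw [Nat.mem_primeFactors]
      exact ⟨hqp, dvd_of_mul_left_dvd h1, hm0.ne'⟩
    have h1 : 2 ^ ((QQ δ X).filter (fun q => n ≡ rr e (M * q) [MOD M * q])).card ≤ n + 1 :=
      (Nat.pow_le_pow_right (by norm_num) (card_le_card hsub)).trans
        ((card_primeFactors_le m hm0).trans hmn)
    have h2 : ((2 : ℝ) ^ ((QQ δ X).filter (fun q => n ≡ rr e (M * q) [MOD M * q])).card) ≤ 2 * X := by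
      have h3 : ((2 : ℝ) ^ ((QQ δ X).filter (fun q => n ≡ rr e (M * q) [MOD M * q])).card) ≤
          (n : ℝ) + 1 := by exact_mod_cast h1
      have h4 : (n : ℝ) ≤ N := by exact_mod_cast hn.2
      linarith
    have h5 := Real.log_le_log (by positivity) h2
    rw [Real.log_pow, Real.log_mul (by norm_num) hX0.ne', ← hL] at h5
    set K : ℝ := (((QQ δ X).filter (fun q => n ≡ rr e (M * q) [MOD M * q])).card : ℝ) with hK
    have hK0 : 0 ≤ K := Nat.cast_nonneg _
    nlinarith
  set B := (Icc 1 N).filter (fun n => IsPrimePow n ∧ ¬ n.Prime) with hB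
  set A := PP M e δ X ∪ B with hA
  -- the inner sums
  have hin : ∀ n ∈ Icc 1 N, ∑ q ∈ QQ δ X, (if n ≡ rr e (M * q) [MOD M * q] then
      (if IsPrimePow n then L ^ 2 else 0) else 0) ≤ if n ∈ A then 2 * L ^ 3 else 0 := by
    intro n hn
    by_cases hpp : IsPrimePow n
    · simp only [if_pos hpp]
      rw [← sum_filter, sum_const, nsmul_eq_mul]
      by_cases hne : ((QQ δ X).filter (fun q => n ≡ rr e (M * q) [MOD M * q])).card = 0
      · rw [hne]
        simp only [Nat.cast_zero, zero_mul]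
        split_ifs
        · positivity
        · exact le_rfl
      · obtain ⟨q, hq⟩ := card_pos.1 (Nat.pos_of_ne_zero hne)
        rw [mem_filter] at hq
        obtain ⟨hq1, hq2⟩ := hq
        have hqp : q.Prime := by
          rw [QQ, mem_filter] at hq1
          exact hq1.2.1
        have h1 := dvd_of_modEq he (Nat.mul_pos hM hqp.pos) hq2
        have hnA : n ∈ A := by
          rw [hA, mem_union]
          by_cases hp : n.Prime
          · left
            rw [PP, mem_filter]
            push_cast at h1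
            exact ⟨hn, hp, dvd_of_mul_right_dvd h1, q, hq1, dvd_of_mul_left_dvd h1⟩
          · right
            rw [hB, mem_filter]
            exact ⟨hn, hpp, hp⟩
        rw [if_pos hnA]
        calc _ ≤ 2 * L * L ^ 2 := mul_le_mul_of_nonneg_right (hk n hn hpp) (by positivity)
          _ = 2 * L ^ 3 := by ring
    · simp only [if_neg hpp, ite_self, sum_const_zero]
      split_ifs
      · positivity
      · exact le_rfl
  have hcard : (A.card : ℝ) ≤ (PP M e δ X).card + 2 * Real.sqrt X * L := by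
    have h1 : A.card ≤ (PP M e δ X).card + B.card := card_union_le _ _
    have h2 : B.card ≤ Nat.sqrt N * Nat.log 2 N := pp_card N
    have h3 : (B.card : ℝ) ≤ (Nat.sqrt N : ℝ) * (Nat.log 2 N : ℝ) := by exact_mod_cast h2
    have h4 : (Nat.sqrt N : ℝ) ≤ Real.sqrt X := by
      refine Real.le_sqrt_of_sq_le ?_
      have : (Nat.sqrt N) ^ 2 ≤ N := Nat.sqrt_le' N
      have : ((Nat.sqrt N : ℝ)) ^ 2 ≤ N := by exact_mod_cast this
      linarith
    have h5 : (Nat.log 2 N : ℝ) ≤ 2 * L := by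
      have h6 : 2 ^ Nat.log 2 N ≤ N := Nat.pow_log_le_self 2 (by omega)
      have h7 : (2 : ℝ) ^ Nat.log 2 N ≤ X := by
        have : (2 : ℝ) ^ Nat.log 2 N ≤ N := by exact_mod_cast h6
        linarith
      have h8 := Real.log_le_log (by positivity) h7
      rw [Real.log_pow, ← hL] at h8
      have h9 : (0 : ℝ) ≤ Nat.log 2 N := Nat.cast_nonneg _
      nlinarith
    have h10 : (B.card : ℝ) ≤ Real.sqrt X * (2 * L) :=
      h3.trans (mul_le_mul h4 h5 (Nat.cast_nonneg _) (Real.sqrt_nonneg _))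
    have h11 : (A.card : ℝ) ≤ (PP M e δ X).card + B.card := by exact_mod_cast h1
    linarith
  calc ∑ q ∈ QQ δ X, psiLogAP X (M * q) (rr e (M * q))
      ≤ ∑ q ∈ QQ δ X, ∑ n ∈ Icc 1 N, (if n ≡ rr e (M * q) [MOD M * q] then
        (if IsPrimePow n then L ^ 2 else 0) else 0) := by
        refine sum_le_sum fun q _ => ?_
        rw [psiLogAP, ← sum_filter]
        refine sum_le_sum fun n hn => ?_
        exact t1 n (mem_filter.1 hn).1
    _ = ∑ n ∈ Icc 1 N, ∑ q ∈ QQ δ X, (if n ≡ rr e (M * q) [MOD M * q] then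
        (if IsPrimePow n then L ^ 2 else 0) else 0) := sum_comm
    _ ≤ ∑ n ∈ Icc 1 N, (if n ∈ A then 2 * L ^ 3 else 0) := sum_le_sum hin
    _ = (((Icc 1 N).filter (fun n => n ∈ A)).card : ℝ) * (2 * L ^ 3) := by
        rw [← sum_filter, sum_const, nsmul_eq_mul]
    _ ≤ (A.card : ℝ) * (2 * L ^ 3) := by
        refine mul_le_mul_of_nonneg_right ?_ (by positivity)
        have : ((Icc 1 N).filter (fun n => n ∈ A)).card ≤ A.card :=
          card_le_card fun n hn => (mem_filter.1 hn).2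
        exact_mod_cast this
    _ ≤ ((PP M e δ X).card + 2 * Real.sqrt X * L) * (2 * L ^ 3) :=
        mul_le_mul_of_nonneg_right hcard (by positivity)
    _ = _ := by ring

end Pool.Agent.H498DC
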